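import Pool.Agent.K3h77.EXA3

/-!
# Flags of cells of a hyperplane arrangement (brick EXA of helper75), part 4: the group
-/

set_option autoImplicit false
set_option linter.unusedSectionVars false
set_option linter.style.haveILetI false

namespace Pool.Agent.K3h77.EXA

open Module Pool.Agent.K3h75.TO

section grp

variable {G N : Type} [AddCommGroup N] [Group G] [Finite G] [DistribMulAction G N] {n : ℕ}
  (b : Basis (Fin n) ℤ N)

/-- the functionals -/
noncomputable def Fn (p : G × Fin n) : N →+ ℤ :=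
  (b.coord p.2).toAddMonoidHom.comp (DistribSMul.toAddMonoidHom N p.1)

theorem Fn_apply (p : G × Fin n) (x : N) : Fn b p x = b.repr (p.1 • x) p.2 := rfl

theorem Fn_smul (p : G × Fin n) (g : G) (x : N) : Fn b p (g • x) = Fn b (p.1 * g, p.2) x := by
  rw [Fn_apply, Fn_apply, mul_smul]

theorem Fn_zero (x : N) (h : ∀ p : G × Fin n, Fn b p x = 0) : x = 0 := by
  apply b.repr.injective
  ext i
  have := h (1, i)
  rw [Fn_apply] at this
  simpa using this

theorem Fn_ne (p : G × Fin n) : Fn (G := G) (N := N) b p ≠ 0 := by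
  intro h
  have h1 : Fn b p (p.1⁻¹ • b p.2) = 0 := by rw [h]; rfl
  rw [Fn_apply, smul_inv_smul] at h1
  simp at h1

theorem sv_smul (g : G) (x : N) :
    sv (Fn b) (g • x) = fun p : G × Fin n => sv (Fn b) x (p.1 * g, p.2) := by
  funext p
  simp only [sv, Fn_smul]

/-- the action on the cells -/
def act (g : G) (X : Cell (Fn (G := G) (N := N) b)) : Cell (Fn (G := G) (N := N) b) :=
  ⟨fun p => X.1 (p.1 * g, p.2), by
    obtain ⟨x, hx⟩ := X.2
    refine ⟨g • x, ?_⟩
    rw [sv_smul, hx]⟩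

theorem act_act (g h : G) (X : Cell (Fn (G := G) (N := N) b)) :
    act b g (act b h X) = act b (g * h) X := by
  apply Subtype.ext
  funext p
  show X.1 (p.1 * g * h, p.2) = X.1 (p.1 * (g * h), p.2)
  rw [mul_assoc]

theorem act_one (X : Cell (Fn (G := G) (N := N) b)) : act b 1 X = X := by
  apply Subtype.ext
  funext p
  show X.1 (p.1 * 1, p.2) = X.1 p
  rw [mul_one]

theorem act_strictMono (g : G) : StrictMono (act (N := N) b g) := by
  intro A B h
  refine lt_of_le_of_ne (fun p => h.le (p.1 * g, p.2)) fun heq => ?_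
  have h1 := congrArg (act b g⁻¹) heq
  rw [act_act, act_act, inv_mul_cancel, act_one, act_one] at h1
  exact h.ne h1

theorem sv_sum {ι κ : Type} [Finite ι] {F : ι → N →+ ℤ} (X : ι → SignType) (s : Finset κ)
    (hs : s.Nonempty) (f : κ → N) (hf : ∀ k ∈ s, sv F (f k) = X) : sv F (∑ k ∈ s, f k) = X := by
  funext i
  have h1 : ∀ k ∈ s, SignType.sign (F i (f k)) = X i := fun k hk => congrFun (hf k hk) i
  show SignType.sign (F i (∑ k ∈ s, f k)) = X i
  rw [map_sum]
  rcases h : X i with _ | _ | _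
  · show SignType.sign (∑ k ∈ s, F i (f k)) = 0
    rw [sign_eq_zero_iff]
    refine Finset.sum_eq_zero fun k hk => ?_
    rw [← sign_eq_zero_iff, h1 k hk, h]
    rfl
  · show SignType.sign (∑ k ∈ s, F i (f k)) = -1
    apply sign_neg
    refine Finset.sum_neg (fun k hk => ?_) hs
    rw [← sign_eq_neg_one_iff, h1 k hk, h]
    rfl
  · show SignType.sign (∑ k ∈ s, F i (f k)) = 1
    apply sign_pos
    refine Finset.sum_pos (fun k hk => ?_) hs
    rw [← sign_eq_one_iff, h1 k hk, h]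
    rfl

/-- the points in the cells -/
noncomputable def pt (X : Cell (Fn (G := G) (N := N) b)) : N :=
  haveI := Fintype.ofFinite G
  ∑ g : G, g • (act b g⁻¹ X).2.choose

theorem sv_pt (X : Cell (Fn (G := G) (N := N) b)) : sv (Fn b) (pt b X) = X.1 := by
  letI := Fintype.ofFinite G
  unfold pt
  refine sv_sum _ _ ⟨1, Finset.mem_univ _⟩ _ fun g _ => ?_
  rw [sv_smul, (act b g⁻¹ X).2.choose_spec]
  funext p
  show X.1 (p.1 * g * g⁻¹, p.2) = X.1 p
  rw [mul_inv_cancel_right]

theorem pt_act (h : G) (X : Cell (Fn (G := G) (N := N) b)) : pt b (act b h X) = h • pt b X := by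
  letI := Fintype.ofFinite G
  show ∑ g : G, g • (act b g⁻¹ (act b h X)).2.choose = h • ∑ g : G, g • (act b g⁻¹ X).2.choose
  rw [Finset.smul_sum]
  refine (Fintype.sum_equiv (Equiv.mulLeft h) (fun g : G => h • g • (act b g⁻¹ X).2.choose)
    (fun g : G => g • (act b g⁻¹ (act b h X)).2.choose) fun g => ?_).symm
  rw [Equiv.coe_mulLeft, smul_smul, act_act]
  have h1 : (h * g)⁻¹ * h = g⁻¹ := by group
  rw [h1]

end grp

theorem t_EXA : S_EXA := by
  intro G N _ _ _ _ _ _
  classical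
  haveI := Fintype.ofFinite G
  set n := Module.finrank ℤ N with hn
  set b : Basis (Fin n) ℤ N := Module.finBasis ℤ N with hb
  have hβ : ∀ X : Cell (Fn (G := G) (N := N) b), sv (Fn b) (pt b X) = X.1 := sv_pt b
  obtain ⟨Λ, E, hD⟩ := dat b hβ (Fn_zero b) (Fn_ne b)
  refine ⟨ph b (Fn b) Λ E, SS (pt b) n, fun x => dm b (Fn (G := G) b) (sv (Fn b) x), ⟨hD, ?_, ?_, ?_, ?_⟩⟩
  · intro g σ hσ
    obtain ⟨X, hX, rfl⟩ := mem_SS.1 hσ
    refine ⟨gens (pt b) (fun k => act b g (X k)),
      mem_SS.2 ⟨_, (act_strictMono b g).comp hX, rfl⟩, fun w => ?_⟩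
    rw [mem_gens, mem_gens]
    refine exists_congr fun k => ?_
    rw [pt_act, eq_inv_smul_iff]
  · intro g σ hσ u hu
    obtain ⟨X, hX, rfl⟩ := mem_SS.1 hσ
    obtain ⟨k, rfl⟩ := mem_gens.1 hu
    rw [ph_apply, ph_apply]
    have h1 : ∑ i : G × Fin n, |Fn b i (g • pt b (X k.succ))| =
        ∑ i : G × Fin n, |Fn b i (pt b (X k.succ))| := by
      refine Fintype.sum_equiv ((Equiv.mulRight g).prodCongr (Equiv.refl (Fin n))) _ _ fun p => ?_
      rw [Fn_smul]
      rfl
    have h2 : dm b (Fn (G := G) b) (sv (Fn b) (g • pt b (X k.succ))) =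
        dm b (Fn (G := G) b) (sv (Fn b) (pt b (X k.succ))) := by
      rw [← pt_act, hβ, hβ, dm_flag b hX k.succ]
      exact dm_flag b ((act_strictMono b g).comp hX) k.succ
    rw [h1, h2]
  · intro g σ hσ u hu
    obtain ⟨X, hX, rfl⟩ := mem_SS.1 hσ
    obtain ⟨k, rfl⟩ := mem_gens.1 hu
    show dm b (Fn (G := G) b) (sv (Fn b) (g • pt b (X k.succ))) =
      dm b (Fn (G := G) b) (sv (Fn b) (pt b (X k.succ)))
    rw [← pt_act, hβ, hβ, dm_flag b hX k.succ]
    exact dm_flag b ((act_strictMono b g).comp hX) k.succ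
  · intro σ hσ u hu u' hu' h
    obtain ⟨X, hX, rfl⟩ := mem_SS.1 hσ
    obtain ⟨k, rfl⟩ := mem_gens.1 hu
    obtain ⟨l, rfl⟩ := mem_gens.1 hu'
    have h1 : dm b (Fn (G := G) b) (sv (Fn b) (pt b (X k.succ))) =
      dm b (Fn (G := G) b) (sv (Fn b) (pt b (X l.succ))) := h
    rw [hβ, hβ, dm_flag b hX k.succ, dm_flag b hX l.succ] at h1
    have h2 : k.succ = l.succ := Fin.ext h1
    rw [h2]

end Pool.Agent.K3h77.EXA
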