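import Pool.Agent.K3h75.TO.StmE

/-!
# Flags of cells of a hyperplane arrangement (brick EXA of helper75), part 1: cells
-/

set_option autoImplicit false
set_option linter.unusedSectionVars false
set_option linter.style.haveILetI false

namespace Pool.Agent.K3h77.EXA

open Module

section signs

theorem sgn_pos {s : SignType} {z : ℤ} (h : 0 < (s : ℤ) * z) : SignType.sign z = s := by
  rcases s with _ | _ | _
  · simp at h
  · have : z < 0 := by
      have h' : (0 : ℤ) < (-1) * z := h
      omega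
    exact sign_neg this
  · have : 0 < z := by
      have h' : (0 : ℤ) < 1 * z := h
      omega
    exact sign_pos this

theorem coe_sign_mul (z : ℤ) : ((SignType.sign z : SignType) : ℤ) * z = |z| := sign_mul_self z

theorem coe_mul_nonneg_of {s t : SignType} {z : ℤ} (h : SignType.sign z = t) (hst : t = 0 ∨ t = s) :
    (s : ℤ) * z = |z| := by
  rcases hst with h1 | h1
  · rw [h1] at h
    rw [sign_eq_zero_iff] at h
    simp [h]
  · rw [← h1, ← h, coe_sign_mul]

theorem abs_coe_le (s : SignType) : |(s : ℤ)| ≤ 1 := by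
  cases s <;> simp

theorem coe_mul_le_abs (s : SignType) (z : ℤ) : (s : ℤ) * z ≤ |z| := by
  cases s
  · simp
  · simp only [SignType.neg_eq_neg_one, SignType.coe_neg, SignType.coe_one, neg_mul, one_mul]
    exact neg_le_abs z
  · simp only [SignType.pos_eq_one, SignType.coe_one, one_mul]
    exact le_abs_self z

end signs

section Arr

variable {N ι : Type} [AddCommGroup N] {n : ℕ} (b : Basis (Fin n) ℤ N) [Finite ι]
  (F : ι → N →+ ℤ)

/-- sign vector -/
noncomputable def sv (x : N) (i : ι) : SignType := SignType.sign (F i x)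

/-- cells -/
def Cell : Type := {X : ι → SignType // ∃ x : N, sv F x = X}

instance : PartialOrder (Cell F) where
  le A B := ∀ i, A.1 i = 0 ∨ A.1 i = B.1 i
  le_refl A i := Or.inr rfl
  le_trans A B C h1 h2 i := by
    rcases h1 i with h | h
    · exact Or.inl h
    · rcases h2 i with h' | h'
      · exact Or.inl (h.trans h')
      · exact Or.inr (h.trans h')
  le_antisymm A B h1 h2 := by
    apply Subtype.ext
    funext i
    rcases h1 i with h | h
    · rcases h2 i with h' | h'
      · rw [h, h']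
      · exact h'.symm
    · exact h

theorem le_def {A B : Cell F} : A ≤ B ↔ ∀ i, A.1 i = 0 ∨ A.1 i = B.1 i := Iff.rfl

instance : Finite (Cell F) := by
  unfold Cell
  infer_instance

variable {F}

theorem exists_zero_of_lt {A B : Cell F} (h : A < B) : ∃ i, A.1 i = 0 ∧ B.1 i ≠ 0 := by
  by_contra hcon
  push Not at hcon
  apply h.ne
  apply Subtype.ext
  funext i
  rcases h.le i with h1 | h1
  · rw [h1, hcon i h1]
  · exact h1

theorem sv_zero_iff {x : N} {i : ι} : sv F x i = 0 ↔ F i x = 0 := sign_eq_zero_iff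

theorem move {A C : Cell F} (hAC : A ≤ C) (d : N) (hd0 : ∀ i, C.1 i = 0 → F i d = 0) (i1 : ι)
    (h1 : A.1 i1 = 0) (h2 : ((C.1 i1 : SignType) : ℤ) * F i1 d < 0) :
    ∃ Y : Cell F, A ≤ Y ∧ Y ≤ C ∧ Y ≠ C ∧ ∀ i, 0 ≤ ((C.1 i : SignType) : ℤ) * F i d → Y.1 i = C.1 i := by
  classical
  haveI := Fintype.ofFinite ι
  obtain ⟨a, ha⟩ := A.2
  obtain ⟨c, hc⟩ := C.2
  have ha' : ∀ i, SignType.sign (F i a) = A.1 i := fun i => congrFun ha i
  have hc' : ∀ i, SignType.sign (F i c) = C.1 i := fun i => congrFun hc i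
  set J : Finset ι := Finset.univ.filter fun i => A.1 i = 0 ∧ ((C.1 i : SignType) : ℤ) * F i d < 0
    with hJ
  have hJne : J.Nonempty := ⟨i1, by rw [hJ, Finset.mem_filter]; exact ⟨Finset.mem_univ _, h1, h2⟩⟩
  obtain ⟨i0, hi0, hmin⟩ := J.exists_min_image
    (fun i => ((((C.1 i : SignType) : ℤ) * F i c : ℤ) : ℚ) /
      ((-(((C.1 i : SignType) : ℤ) * F i d) : ℤ) : ℚ)) hJne
  rw [hJ, Finset.mem_filter] at hi0
  obtain ⟨-, hA0, hC0⟩ := hi0
  -- the multiples
  set p : ℤ := -(((C.1 i0 : SignType) : ℤ) * F i0 d) with hp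
  set q : ℤ := ((C.1 i0 : SignType) : ℤ) * F i0 c with hq
  have hp0 : 0 < p := by omega
  have hCi0 : C.1 i0 ≠ 0 := by
    intro h
    rw [h] at hC0
    simp at hC0
  have hcabs : ∀ i, ((C.1 i : SignType) : ℤ) * F i c = |F i c| := fun i =>
    coe_mul_nonneg_of (hc' i) (Or.inr rfl)
  have hq0 : 0 < q := by
    rw [hq, hcabs, abs_pos]
    intro h
    apply hCi0
    rw [← hc' i0, h, sign_zero]
  obtain ⟨D, hD⟩ : ∃ D : ℤ, 0 < D ∧ ∀ i, q * |F i d| < D := by
    refine ⟨1 + ∑ i, q * |F i d|, ?_, fun i => ?_⟩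
    · have : 0 ≤ ∑ i, q * |F i d| := Finset.sum_nonneg fun i _ => by positivity
      omega
    · have := Finset.single_le_sum (f := fun i => q * |F i d|)
        (fun i _ => by positivity) (Finset.mem_univ i)
      omega
  obtain ⟨hD0, hD⟩ := hD
  set y : N := D • a + p • c + q • d with hy
  have hFy : ∀ i, F i y = D * F i a + p * F i c + q * F i d := by
    intro i
    rw [hy, map_add, map_add, map_zsmul, map_zsmul, map_zsmul]
    simp [smul_eq_mul]
  -- signs where A is not zero
  have hs1 : ∀ i, A.1 i ≠ 0 → sv F y i = C.1 i := by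
    intro i hi
    have hAC' : A.1 i = C.1 i := (hAC i).resolve_left hi
    apply sgn_pos
    rw [hFy]
    have e1 : ((C.1 i : SignType) : ℤ) * F i a = |F i a| :=
      coe_mul_nonneg_of (ha' i) (Or.inr hAC')
    have e2 := hcabs i
    have e3 : -|F i d| ≤ ((C.1 i : SignType) : ℤ) * F i d := by
      have := coe_mul_le_abs (C.1 i) (-(F i d))
      rw [abs_neg] at this
      linarith
    have e4 : 1 ≤ |F i a| := by
      have : F i a ≠ 0 := by
        intro h
        apply hi
        rw [← ha' i, h, sign_zero]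
      exact Int.one_le_abs this
    have e5 := hD i
    have e6 : 0 ≤ |F i c| := abs_nonneg _
    calc (0 : ℤ) < D * 1 + p * 0 + q * (-|F i d|) := by nlinarith
      _ ≤ D * |F i a| + p * |F i c| + q * (((C.1 i : SignType) : ℤ) * F i d) := by
          have t1 := mul_le_mul_of_nonneg_left e4 hD0.le
          have t2 := mul_le_mul_of_nonneg_left e6 hp0.le
          have t3 := mul_le_mul_of_nonneg_left e3 hq0.le
          linarith
      _ = ((C.1 i : SignType) : ℤ) * (D * F i a + p * F i c + q * F i d) := by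
          rw [← e1, ← e2]; ring
  have hs2 : ∀ i, C.1 i = 0 → sv F y i = 0 := by
    intro i hi
    have hAi : A.1 i = 0 := by
      rcases hAC i with h | h
      · exact h
      · rw [h, hi]
    rw [sv_zero_iff, hFy]
    have e1 : F i a = 0 := by rw [← sign_eq_zero_iff, ha' i, hAi]
    have e2 : F i c = 0 := by rw [← sign_eq_zero_iff, hc' i, hi]
    rw [e1, e2, hd0 i hi]; simp
  have hs3 : ∀ i, A.1 i = 0 → F i a = 0 := fun i hi => by rw [← sign_eq_zero_iff, ha' i, hi]
  have hs4 : ∀ i, A.1 i = 0 → C.1 i ≠ 0 → 0 ≤ ((C.1 i : SignType) : ℤ) * F i d →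
      sv F y i = C.1 i := by
    intro i hi hCi hnn
    apply sgn_pos
    rw [hFy, hs3 i hi]
    have e2 := hcabs i
    have e4 : 1 ≤ |F i c| := by
      have : F i c ≠ 0 := by
        intro h
        apply hCi
        rw [← hc' i, h, sign_zero]
      exact Int.one_le_abs this
    have t2 := mul_le_mul_of_nonneg_left e4 hp0.le
    have t3 := mul_nonneg hq0.le hnn
    calc (0 : ℤ) < p * |F i c| + q * (((C.1 i : SignType) : ℤ) * F i d) := by linarith
      _ = ((C.1 i : SignType) : ℤ) * (D * 0 + p * F i c + q * F i d) := by rw [← e2]; ring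
  have hs5 : ∀ i, A.1 i = 0 → C.1 i ≠ 0 → ((C.1 i : SignType) : ℤ) * F i d < 0 →
      sv F y i = 0 ∨ sv F y i = C.1 i := by
    intro i hi hCi hneg
    have hiJ : i ∈ J := by rw [hJ, Finset.mem_filter]; exact ⟨Finset.mem_univ _, hi, hneg⟩
    have hm := hmin i hiJ
    have hr : 0 ≤ p * (((C.1 i : SignType) : ℤ) * F i c) + q * (((C.1 i : SignType) : ℤ) * F i d) := by
      have hd1 : (0 : ℚ) < ((-(((C.1 i : SignType) : ℤ) * F i d) : ℤ) : ℚ) := by
        exact_mod_cast (by omega : 0 < -(((C.1 i : SignType) : ℤ) * F i d))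
      have hd2 : (0 : ℚ) < ((p : ℤ) : ℚ) := by exact_mod_cast hp0
      rw [div_le_div_iff₀ hd2 hd1] at hm
      have hm' : q * (-(((C.1 i : SignType) : ℤ) * F i d)) ≤ ((C.1 i : SignType) : ℤ) * F i c * p := by
        exact_mod_cast hm
      linarith
    have hr' : 0 ≤ ((C.1 i : SignType) : ℤ) * F i y := by
      rw [hFy, hs3 i hi]
      calc (0 : ℤ) ≤ _ := hr
        _ = ((C.1 i : SignType) : ℤ) * (D * 0 + p * F i c + q * F i d) := by ring
    rcases hr'.eq_or_lt with h | h
    · left
      rw [sv_zero_iff]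
      rcases mul_eq_zero.1 h.symm with h' | h'
      · exfalso
        apply hCi
        revert h'
        cases C.1 i <;> simp
      · exact h'
    · right
      exact sgn_pos h
  refine ⟨⟨sv F y, y, rfl⟩, ?_, ?_, ?_, ?_⟩
  · intro i
    by_cases hi : A.1 i = 0
    · exact Or.inl hi
    · right
      show A.1 i = sv F y i
      rw [hs1 i hi]
      exact (hAC i).resolve_left hi
  · intro i
    show sv F y i = 0 ∨ sv F y i = C.1 i
    by_cases hi : A.1 i = 0
    · by_cases hCi : C.1 i = 0
      · exact Or.inl (hs2 i hCi)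
      · rcases lt_or_ge (((C.1 i : SignType) : ℤ) * F i d) 0 with h | h
        · exact hs5 i hi hCi h
        · exact Or.inr (hs4 i hi hCi h)
    · exact Or.inr (hs1 i hi)
  · intro h
    have h3 : sv F y i0 = C.1 i0 := congrFun (congrArg Subtype.val h) i0
    have h4 : F i0 y = 0 := by
      rw [hFy, hs3 i0 hA0]
      have h5 : ((C.1 i0 : SignType) : ℤ) * (D * 0 + p * F i0 c + q * F i0 d) = 0 := by
        rw [show ((C.1 i0 : SignType) : ℤ) * (D * 0 + p * F i0 c + q * F i0 d) =
          p * (((C.1 i0 : SignType) : ℤ) * F i0 c) + q * (((C.1 i0 : SignType) : ℤ) * F i0 d) by ring,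
          ← hq]
        have h6 : ((C.1 i0 : SignType) : ℤ) * F i0 d = -p := by rw [hp]; ring
        rw [h6]; ring
      rcases mul_eq_zero.1 h5 with h' | h'
      · exfalso
        apply hCi0
        revert h'
        cases C.1 i0 <;> simp
      · exact h'
    apply hCi0
    rw [← h3, sv_zero_iff]
    exact h4
  · intro i hnn
    show sv F y i = C.1 i
    by_cases hi : A.1 i = 0
    · by_cases hCi : C.1 i = 0
      · rw [hs2 i hCi, hCi]
      · exact hs4 i hi hCi hnn
    · exact hs1 i hi

/-- the neighbour in the middle of a flag -/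
theorem adjMid {A B C : Cell F} (h1 : A < B) (h2 : B < C) : ∃ Y : Cell F, A < Y ∧ Y < C ∧ Y ≠ B := by
  obtain ⟨c, hc⟩ := B.2
  have hc' : ∀ i, SignType.sign (F i c) = B.1 i := fun i => congrFun hc i
  obtain ⟨i1, hA1, hB1⟩ := exists_zero_of_lt h1
  obtain ⟨i2, hB2, hC2⟩ := exists_zero_of_lt h2
  have hBC : B ≤ C := h2.le
  obtain ⟨Y, hY1, hY2, hY3, hY4⟩ := move (h1.le.trans h2.le) (-c) (fun i hi => by
    have : B.1 i = 0 := by
      rcases hBC i with h | h
      · exact h
      · rw [h, hi]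
    rw [map_neg, neg_eq_zero, ← sign_eq_zero_iff, hc' i, this]) i1 hA1 (by
    have e1 : ((C.1 i1 : SignType) : ℤ) * F i1 c = |F i1 c| :=
      coe_mul_nonneg_of (hc' i1) (Or.inr ((hBC i1).resolve_left hB1))
    rw [map_neg, mul_neg, e1, neg_lt_zero, abs_pos]
    intro h
    apply hB1
    rw [← hc' i1, h, sign_zero])
  have hY : Y.1 i2 = C.1 i2 := by
    apply hY4
    have : F i2 c = 0 := by rw [← sign_eq_zero_iff, hc' i2, hB2]
    rw [map_neg, this]; simp
  refine ⟨Y, lt_of_le_of_ne hY1 ?_, lt_of_le_of_ne hY2 hY3, ?_⟩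
  · rintro rfl
    have h3 := h1.le i2
    rw [hB2] at h3
    have h4 : A.1 i2 = 0 := by rcases h3 with h | h <;> exact h
    exact hC2 (hY ▸ h4)
  · rintro rfl
    exact hC2 (hY ▸ hB2)

/-- the neighbour at the end of a flag -/
theorem adjTop {A B : Cell F} (h1 : A < B) (h2 : ∀ i, B.1 i ≠ 0) : ∃ Y : Cell F, A < Y ∧ Y ≠ B := by
  classical
  haveI := Fintype.ofFinite ι
  obtain ⟨a, ha⟩ := A.2
  obtain ⟨c, hc⟩ := B.2
  have ha' : ∀ i, SignType.sign (F i a) = A.1 i := fun i => congrFun ha i
  have hc' : ∀ i, SignType.sign (F i c) = B.1 i := fun i => congrFun hc i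
  obtain ⟨i1, hA1, hB1⟩ := exists_zero_of_lt h1
  obtain ⟨D, hD0, hD⟩ : ∃ D : ℤ, 0 < D ∧ ∀ i, |F i c| < D := by
    refine ⟨1 + ∑ i, |F i c|, ?_, fun i => ?_⟩
    · have : 0 ≤ ∑ i, |F i c| := Finset.sum_nonneg fun i _ => abs_nonneg _
      omega
    · have := Finset.single_le_sum (f := fun i => |F i c|)
        (fun i _ => abs_nonneg _) (Finset.mem_univ i)
      omega
  set y : N := D • a - c with hy
  have hFy : ∀ i, F i y = D * F i a - F i c := by
    intro i
    rw [hy, map_sub, map_zsmul, smul_eq_mul]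
  have hs1 : ∀ i, A.1 i ≠ 0 → sv F y i = A.1 i := by
    intro i hi
    apply sgn_pos
    rw [hFy]
    have e1 : ((A.1 i : SignType) : ℤ) * F i a = |F i a| :=
      coe_mul_nonneg_of (ha' i) (Or.inr rfl)
    have e3 := coe_mul_le_abs (A.1 i) (F i c)
    have e4 : 1 ≤ |F i a| := by
      have : F i a ≠ 0 := by
        intro h
        apply hi
        rw [← ha' i, h, sign_zero]
      exact Int.one_le_abs this
    have e5 := hD i
    have t1 := mul_le_mul_of_nonneg_left e4 hD0.le
    calc (0 : ℤ) < D * |F i a| - ((A.1 i : SignType) : ℤ) * F i c := by linarith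
      _ = ((A.1 i : SignType) : ℤ) * (D * F i a - F i c) := by rw [← e1]; ring
  have hs2 : F i1 y = - F i1 c := by
    rw [hFy]
    have : F i1 a = 0 := by rw [← sign_eq_zero_iff, ha' i1, hA1]
    rw [this]; ring
  have hne : F i1 c ≠ 0 := by
    intro h
    apply hB1
    rw [← hc' i1, h, sign_zero]
  refine ⟨⟨sv F y, y, rfl⟩, lt_of_le_of_ne ?_ ?_, ?_⟩
  · intro i
    by_cases hi : A.1 i = 0
    · exact Or.inl hi
    · right
      exact (hs1 i hi).symm
  · intro h
    have h3 : A.1 i1 = sv F y i1 := congrFun (congrArg Subtype.val h) i1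
    rw [hA1] at h3
    have h4 : F i1 y = 0 := sv_zero_iff.1 h3.symm
    rw [hs2] at h4
    exact hne (neg_eq_zero.1 h4)
  · intro h
    have h3 : sv F y i1 = B.1 i1 := congrFun (congrArg Subtype.val h) i1
    have h4 : SignType.sign (-(F i1 c)) = SignType.sign (F i1 c) := by
      rw [← hs2, hc' i1]; exact h3
    rw [Left.sign_neg] at h4
    rcases lt_trichotomy (F i1 c) 0 with h5 | h5 | h5
    · rw [sign_neg h5] at h4; exact absurd h4 (by decide)
    · exact hne h5
    · rw [sign_pos h5] at h4; exact absurd h4 (by decide)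

/-- a cell with a zero at a nonzero functional is not maximal -/
theorem exists_gt {A : Cell F} {i : ι} (hi : A.1 i = 0) (hF : F i ≠ 0) : ∃ Y : Cell F, A < Y := by
  classical
  haveI := Fintype.ofFinite ι
  obtain ⟨a, ha⟩ := A.2
  have ha' : ∀ i, SignType.sign (F i a) = A.1 i := fun i => congrFun ha i
  obtain ⟨c, hc⟩ : ∃ c, F i c ≠ 0 := by
    by_contra hcon
    push Not at hcon
    exact hF (AddMonoidHom.ext hcon)
  obtain ⟨D, hD0, hD⟩ : ∃ D : ℤ, 0 < D ∧ ∀ i, |F i c| < D := by
    refine ⟨1 + ∑ i, |F i c|, ?_, fun i => ?_⟩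
    · have : 0 ≤ ∑ i, |F i c| := Finset.sum_nonneg fun i _ => abs_nonneg _
      omega
    · have := Finset.single_le_sum (f := fun i => |F i c|)
        (fun i _ => abs_nonneg _) (Finset.mem_univ i)
      omega
  set y : N := D • a - c with hy
  have hFy : ∀ i, F i y = D * F i a - F i c := by
    intro i
    rw [hy, map_sub, map_zsmul, smul_eq_mul]
  have hs1 : ∀ i, A.1 i ≠ 0 → sv F y i = A.1 i := by
    intro i hi
    apply sgn_pos
    rw [hFy]
    have e1 : ((A.1 i : SignType) : ℤ) * F i a = |F i a| :=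
      coe_mul_nonneg_of (ha' i) (Or.inr rfl)
    have e3 := coe_mul_le_abs (A.1 i) (F i c)
    have e4 : 1 ≤ |F i a| := by
      have : F i a ≠ 0 := by
        intro h
        apply hi
        rw [← ha' i, h, sign_zero]
      exact Int.one_le_abs this
    have e5 := hD i
    have t1 := mul_le_mul_of_nonneg_left e4 hD0.le
    calc (0 : ℤ) < D * |F i a| - ((A.1 i : SignType) : ℤ) * F i c := by linarith
      _ = ((A.1 i : SignType) : ℤ) * (D * F i a - F i c) := by rw [← e1]; ring
  refine ⟨⟨sv F y, y, rfl⟩, lt_of_le_of_ne ?_ ?_⟩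
  · intro j
    by_cases hj : A.1 j = 0
    · exact Or.inl hj
    · right
      exact (hs1 j hj).symm
  · intro h
    have h3 : A.1 i = sv F y i := congrFun (congrArg Subtype.val h) i
    rw [hi] at h3
    have h4 : F i y = 0 := sv_zero_iff.1 h3.symm
    have h5 : F i a = 0 := by rw [← sign_eq_zero_iff, ha' i, hi]
    rw [hFy, h5] at h4
    apply hc
    omega

end Arr

end Pool.Agent.K3h77.EXA
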