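import Pool.Agent.K3h77.EXA1

/-!
# Flags of cells of a hyperplane arrangement (brick EXA of helper75), part 2: dimensions, flags
-/

set_option autoImplicit false
set_option linter.unusedSectionVars false
set_option linter.style.haveILetI false

namespace Pool.Agent.K3h77.EXA

open Module

section Arr

variable {N ι : Type} [AddCommGroup N] {n : ℕ} (b : Basis (Fin n) ℤ N) [Finite ι]
  (F : ι → N →+ ℤ)

/-- coordinates -/
noncomputable def eH : N →+ (Fin n → ℚ) where
  toFun x j := (b.repr x j : ℚ)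
  map_zero' := by funext j; simp
  map_add' x y := by funext j; simp

theorem eH_apply (x : N) (j : Fin n) : eH b x j = (b.repr x j : ℚ) := rfl

/-- the functional on the rational vector space -/
noncomputable def Ft (f : N →+ ℤ) : (Fin n → ℚ) →ₗ[ℚ] ℚ :=
  ∑ j, (f (b j) : ℚ) • LinearMap.proj j

theorem Ft_eH (f : N →+ ℤ) (x : N) : Ft b f (eH b x) = (f x : ℚ) := by
  have h : f x = ∑ j, b.repr x j * f (b j) := by
    conv_lhs => rw [← b.sum_repr x]
    rw [map_sum]
    refine Finset.sum_congr rfl fun j _ => ?_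
    rw [map_zsmul, smul_eq_mul]
  rw [h]
  simp only [Ft, LinearMap.sum_apply, LinearMap.smul_apply, LinearMap.proj_apply, eH_apply,
    smul_eq_mul]
  push_cast
  exact Finset.sum_congr rfl fun j _ => mul_comm _ _

theorem scale (y : Fin n → ℚ) : ∃ D : ℕ, 0 < D ∧ ∃ x : N, eH b x = (D : ℚ) • y := by
  classical
  refine ⟨∏ j, (y j).den, Finset.prod_pos fun j _ => (y j).den_pos,
    ∑ j, ((y j).num * ((∏ k ∈ Finset.univ.erase j, (y k).den : ℕ) : ℤ)) • b j, ?_⟩
  funext j
  rw [eH_apply, b.repr_sum_self]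
  rw [Pi.smul_apply, smul_eq_mul, ← Finset.mul_prod_erase _ _ (Finset.mem_univ j)]
  have h := Rat.mul_den_eq_num (y j)
  push_cast
  rw [← h]
  push_cast
  ring

/-- the linear span of a cell -/
noncomputable def L (X : ι → SignType) : Submodule ℚ (Fin n → ℚ) :=
  ⨅ i, ⨅ (_ : X i = 0), LinearMap.ker (Ft b (F i))

theorem mem_L {X : ι → SignType} {y : Fin n → ℚ} :
    y ∈ L b F X ↔ ∀ i, X i = 0 → Ft b (F i) y = 0 := by
  simp [L, Submodule.mem_iInf, LinearMap.mem_ker]

theorem eH_mem_L {X : ι → SignType} {x : N} :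
    eH b x ∈ L b F X ↔ ∀ i, X i = 0 → F i x = 0 := by
  rw [mem_L]
  refine forall_congr' fun i => ?_
  rw [Ft_eH]
  simp

/-- dimension of a cell -/
noncomputable def dm (X : ι → SignType) : ℕ := finrank ℚ (L b F X)

theorem dm_le (X : ι → SignType) : dm b F X ≤ n := by
  have h := Submodule.finrank_le (L b F X)
  rwa [Module.finrank_fin_fun] at h

variable {F}

theorem L_lt {A B : Cell F} (h : A < B) : L b F A.1 < L b F B.1 := by
  have hle : A ≤ B := h.le
  refine lt_of_le_of_ne ?_ ?_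
  · intro y hy
    rw [mem_L] at hy ⊢
    intro i hi
    apply hy
    rcases hle i with h1 | h1
    · exact h1
    · rw [h1, hi]
  · intro heq
    obtain ⟨i, h1, h2⟩ := exists_zero_of_lt h
    obtain ⟨x, hx⟩ := B.2
    have h3 : eH b x ∈ L b F B.1 := by
      rw [eH_mem_L]
      intro j hj
      rw [← sv_zero_iff, hx, hj]
    rw [← heq, eH_mem_L] at h3
    apply h2
    rw [← hx, sv_zero_iff]
    exact h3 i h1

theorem dm_lt {A B : Cell F} (h : A < B) : dm b F A.1 < dm b F B.1 :=
  Submodule.finrank_lt_finrank_of_lt (L_lt b h)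

theorem no_zero {A : Cell F} (h : dm b F A.1 = n) (hF : ∀ i, F i ≠ 0) (i : ι) : A.1 i ≠ 0 := by
  intro hi
  obtain ⟨Y, hY⟩ := exists_gt hi (hF i)
  have h1 := dm_lt b hY
  have h2 := dm_le b F Y.1
  omega

/-- the zero cell -/
def Z0 (F : ι → N →+ ℤ) : Cell F := ⟨0, 0, by funext i; simp [sv]⟩

theorem Z0_le (A : Cell F) : Z0 F ≤ A := fun _ => Or.inl rfl

theorem dm_Z0 (hF0 : ∀ x, (∀ i, F i x = 0) → x = 0) : dm b F (Z0 F).1 = 0 := by
  have h : L b F (Z0 F).1 = ⊥ := by
    rw [eq_bot_iff]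
    intro y hy
    rw [mem_L] at hy
    obtain ⟨D, hD, x, hx⟩ := scale b y
    have h1 : x = 0 := by
      apply hF0
      intro i
      have h2 := hy i rfl
      have h3 : Ft b (F i) (eH b x) = 0 := by
        rw [hx, map_smul, h2, smul_zero]
      rw [Ft_eH] at h3
      exact_mod_cast h3
    rw [h1, map_zero] at hx
    rw [Submodule.mem_bot]
    rcases smul_eq_zero.1 hx.symm with h2 | h2
    · exfalso
      have : D = 0 := by exact_mod_cast h2
      omega
    · exact h2
  rw [dm, h, finrank_bot]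

/-- there is a cell between two cells whose dimensions differ by at least two -/
theorem between {A C : Cell F} (hAC : A < C) (h : dm b F A.1 + 2 ≤ dm b F C.1) :
    ∃ Y : Cell F, A < Y ∧ Y < C := by
  obtain ⟨i0, hA0, hC0⟩ := exists_zero_of_lt hAC
  have hle : A ≤ C := hAC.le
  -- a vector
  have h1 : ∃ y ∈ L b F C.1 ⊓ LinearMap.ker (Ft b (F i0)), y ∉ L b F A.1 := by
    by_contra hcon
    push Not at hcon
    have h2 : L b F C.1 ⊓ LinearMap.ker (Ft b (F i0)) ≤ L b F A.1 := hcon
    have h3 := Submodule.finrank_mono h2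
    have h4 : finrank ℚ (L b F C.1) ≤
        finrank ℚ (L b F C.1 ⊓ LinearMap.ker (Ft b (F i0)) : Submodule ℚ (Fin n → ℚ)) + 1 := by
      have h5 := Submodule.finrank_sup_add_finrank_inf_eq (L b F C.1)
        (LinearMap.ker (Ft b (F i0)))
      have h6 := LinearMap.finrank_range_add_finrank_ker (Ft b (F i0))
      have h7 : finrank ℚ (LinearMap.range (Ft b (F i0))) ≤ 1 := by
        have := Submodule.finrank_le (LinearMap.range (Ft b (F i0)))
        simpa using this
      have h8 := Submodule.finrank_le (L b F C.1 ⊔ LinearMap.ker (Ft b (F i0)))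
      omega
    have h9 : dm b F A.1 = finrank ℚ (L b F A.1) := rfl
    have h10 : dm b F C.1 = finrank ℚ (L b F C.1) := rfl
    omega
  obtain ⟨y, hy, hyA⟩ := h1
  obtain ⟨D, hD, d, hd⟩ := scale b y
  have hD' : (D : ℚ) ≠ 0 := by
    have : D ≠ 0 := by omega
    exact_mod_cast this
  have hdC : eH b d ∈ L b F C.1 := by
    rw [hd]; exact Submodule.smul_mem _ _ hy.1
  have hd0 : F i0 d = 0 := by
    have h2 : Ft b (F i0) (eH b d) = 0 := by
      rw [hd, map_smul, LinearMap.mem_ker.1 hy.2, smul_zero]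
    rw [Ft_eH] at h2
    exact_mod_cast h2
  have hdA : eH b d ∉ L b F A.1 := by
    intro h2
    apply hyA
    rw [hd] at h2
    have h3 := Submodule.smul_mem _ (D : ℚ)⁻¹ h2
    rwa [smul_smul, inv_mul_cancel₀ hD', one_smul] at h3
  rw [eH_mem_L] at hdC hdA
  push Not at hdA
  obtain ⟨i1, hA1, hF1⟩ := hdA
  have hC1 : C.1 i1 ≠ 0 := fun h2 => hF1 (hdC i1 h2)
  have key : ∀ d' : N, (∀ i, C.1 i = 0 → F i d' = 0) → F i0 d' = 0 →
      ((C.1 i1 : SignType) : ℤ) * F i1 d' < 0 → ∃ Y : Cell F, A < Y ∧ Y < C := by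
    intro d' h2 h3 h4
    obtain ⟨Y, hY1, hY2, hY3, hY4⟩ := move hle d' h2 i1 hA1 h4
    refine ⟨Y, lt_of_le_of_ne hY1 ?_, lt_of_le_of_ne hY2 hY3⟩
    rintro rfl
    apply hC0
    rw [← hY4 i0 (by rw [h3]; simp), hA0]
  rcases lt_trichotomy (((C.1 i1 : SignType) : ℤ) * F i1 d) 0 with h2 | h2 | h2
  · exact key d hdC hd0 h2
  · exfalso
    rcases mul_eq_zero.1 h2 with h3 | h3
    · apply hC1
      revert h3
      cases C.1 i1 <;> simp
    · exact hF1 h3
  · refine key (-d) (fun i hi => by rw [map_neg, hdC i hi, neg_zero]) (by rw [map_neg, hd0, neg_zero])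
      (by rw [map_neg, mul_neg]; omega)

theorem exists_facet (hF0 : ∀ x, (∀ i, F i x = 0) → x = 0) {C : Cell F} {m : ℕ}
    (h : dm b F C.1 = m + 1) : ∃ B : Cell F, B < C ∧ dm b F B.1 = m := by
  classical
  haveI : Fintype (Cell F) := Fintype.ofFinite _
  have hne : (Finset.univ.filter fun B : Cell F => B < C).Nonempty := by
    refine ⟨Z0 F, ?_⟩
    rw [Finset.mem_filter]
    refine ⟨Finset.mem_univ _, lt_of_le_of_ne (Z0_le C) ?_⟩
    rintro rfl
    rw [dm_Z0 b hF0] at h
    omega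
  obtain ⟨B, hB, hmax⟩ := Finset.exists_max_image _ (fun B : Cell F => dm b F B.1) hne
  rw [Finset.mem_filter] at hB
  refine ⟨B, hB.2, ?_⟩
  have h1 := dm_lt b hB.2
  by_contra h2
  obtain ⟨Y, hY1, hY2⟩ := between b hB.2 (by omega)
  have h3 := hmax Y (by rw [Finset.mem_filter]; exact ⟨Finset.mem_univ _, hY2⟩)
  have h4 := dm_lt b hY1
  omega

theorem exists_chain (hF0 : ∀ x, (∀ i, F i x = 0) → x = 0) (m : ℕ) : ∀ C : Cell F,
    dm b F C.1 = m → ∃ X : Fin (m + 1) → Cell F, StrictMono X ∧ X (Fin.last m) = C := by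
  induction m with
  | zero =>
    intro C _
    exact ⟨fun _ => C, fun i j hij => absurd hij (by omega), rfl⟩
  | succ m ih =>
    intro C hC
    obtain ⟨B, hB, hd⟩ := exists_facet b hF0 hC
    obtain ⟨X, hX, hl⟩ := ih B hd
    refine ⟨Fin.snoc X C, ?_, by simp⟩
    rw [Fin.strictMono_iff_lt_succ]
    intro i
    refine Fin.lastCases ?_ (fun j => ?_) i
    · rw [Fin.snoc_castSucc, Fin.succ_last, Fin.snoc_last, hl]
      exact hB
    · rw [Fin.snoc_castSucc, ← Fin.castSucc_succ, Fin.snoc_castSucc]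
      exact hX (by simp [Fin.lt_def])

theorem exists_top (hF : ∀ i, F i ≠ 0) : ∃ C : Cell F, dm b F C.1 = n := by
  classical
  haveI : Fintype (Cell F) := Fintype.ofFinite _
  obtain ⟨C, -, hmax⟩ := Finset.exists_max_image Finset.univ (fun B : Cell F => dm b F B.1)
    ⟨Z0 F, Finset.mem_univ _⟩
  refine ⟨C, ?_⟩
  have h1 : ∀ i, C.1 i ≠ 0 := by
    intro i hi
    obtain ⟨Y, hY⟩ := exists_gt hi (hF i)
    have h2 := hmax Y (Finset.mem_univ _)
    have h3 := dm_lt b hY
    omega
  have h2 : L b F C.1 = ⊤ := by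
    rw [eq_top_iff]
    intro y _
    rw [mem_L]
    intro i hi
    exact absurd hi (h1 i)
  rw [dm, h2, finrank_top, Module.finrank_fin_fun]

include b in
theorem exists_flag (hF0 : ∀ x, (∀ i, F i x = 0) → x = 0) (hF : ∀ i, F i ≠ 0) :
    ∃ X : Fin (n + 1) → Cell F, StrictMono X := by
  obtain ⟨C, hC⟩ := exists_top b hF
  obtain ⟨X, hX, -⟩ := exists_chain b hF0 n C hC
  exact ⟨X, hX⟩

theorem fin_strictMono {m : ℕ} (f : Fin (m + 1) → ℕ) (hf : StrictMono f)
    (hl : f (Fin.last m) ≤ m) (k : Fin (m + 1)) : f k = k := by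
  have h1 : ∀ k : Fin (m + 1), (k : ℕ) ≤ f k := by
    intro k
    induction k using Fin.induction with
    | zero => simp
    | succ i ih =>
      have h2 := hf (Fin.castSucc_lt_succ (i := i))
      have h3 : ((i.succ : Fin (m + 1)) : ℕ) = i + 1 := by simp
      have h4 : ((i.castSucc : Fin (m + 1)) : ℕ) = i := by simp
      omega
  have h2 : ∀ k : Fin (m + 1), f k ≤ k := by
    intro k
    induction k using Fin.reverseInduction with
    | last => simpa using hl
    | cast i ih =>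
      have h2 := hf (Fin.castSucc_lt_succ (i := i))
      have h3 : ((i.succ : Fin (m + 1)) : ℕ) = i + 1 := by simp
      have h4 : ((i.castSucc : Fin (m + 1)) : ℕ) = i := by simp
      omega
  exact le_antisymm (h2 k) (h1 k)

theorem dm_flag {X : Fin (n + 1) → Cell F} (hX : StrictMono X) (k : Fin (n + 1)) :
    dm b F (X k).1 = k :=
  fin_strictMono (fun k => dm b F (X k).1) (fun i j hij => dm_lt b (hX hij)) (dm_le b F _) k

end Arr

end Pool.Agent.K3h77.EXA
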