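import Pool.Agent.K3h77.EXA2

/-!
# Flags of cells of a hyperplane arrangement (brick EXA of helper75), part 3: the fan
-/

set_option autoImplicit false
set_option linter.unusedSectionVars false
set_option linter.style.haveILetI false

namespace Pool.Agent.K3h77.EXA

open Module Pool.Agent.K3h75.TO Filter

theorem tri {K V : Type} [Field K] [AddCommGroup V] [Module K V] {n : ℕ} (v : Fin n → V)
    (f : Fin n → V →ₗ[K] K) (h0 : ∀ k j, j < k → f k (v j) = 0) (h1 : ∀ k, f k (v k) ≠ 0) :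
    LinearIndependent K v := by
  classical
  rw [Fintype.linearIndependent_iff]
  intro g hg
  by_contra hcon
  push Not at hcon
  obtain ⟨i, hi⟩ := hcon
  obtain ⟨k, hk, hmax⟩ := Finset.exists_max_image (Finset.univ.filter fun i => g i ≠ 0) id
    ⟨i, by simp [hi]⟩
  rw [Finset.mem_filter] at hk
  have h2 : f k (∑ i, g i • v i) = g k * f k (v k) := by
    rw [map_sum, Finset.sum_eq_single k]
    · rw [map_smul, smul_eq_mul]
    · intro j _ hjk
      rw [map_smul, smul_eq_mul]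
      rcases lt_or_gt_of_ne hjk with h | h
      · rw [h0 k j h, mul_zero]
      · have : g j = 0 := by
          by_contra hgj
          have := hmax j (by simp [hgj])
          simp only [id] at this
          exact absurd h (not_lt.2 this)
        rw [this, zero_mul]
    · intro h; exact absurd (Finset.mem_univ k) h
  rw [hg, map_zero] at h2
  rcases mul_eq_zero.1 h2.symm with h | h
  · exact hk.2 h
  · exact h1 k h

theorem growth {n : ℕ} (c : Fin n → ℚ) (m : Fin n) (h0 : ∀ k, m < k → c k = 0) (h1 : 0 < c m)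
    (j : ℕ) (hj : j ≤ m) :
    ∀ᶠ Λ : ℕ in atTop, ((Λ : ℕ) : ℚ) ^ j < ∑ k : Fin n, ((Λ : ℕ) : ℚ) ^ ((k : ℕ) + 1) * c k := by
  obtain ⟨Λ₀, hΛ₀⟩ := exists_nat_gt (((∑ k, |c k|) + 1) / c m)
  filter_upwards [eventually_ge_atTop Λ₀, eventually_ge_atTop 1] with Λ h2 h3
  have h4 : ((∑ k, |c k|) + 1) / c m < (Λ : ℚ) := hΛ₀.trans_le (by exact_mod_cast h2)
  rw [div_lt_iff₀ h1] at h4
  have h5 : (1 : ℚ) ≤ Λ := by exact_mod_cast h3
  have h6 : ∀ k : Fin n, (if k = m then (Λ : ℚ) ^ ((m : ℕ) + 1) * c m else 0) -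
      (Λ : ℚ) ^ (m : ℕ) * |c k| ≤ (Λ : ℚ) ^ ((k : ℕ) + 1) * c k := by
    intro k
    have hp : (0 : ℚ) ≤ (Λ : ℚ) ^ (m : ℕ) * |c k| := by positivity
    split_ifs with h
    · subst h
      linarith
    · rcases lt_or_gt_of_ne h with h' | h'
      · have h7 : (Λ : ℚ) ^ ((k : ℕ) + 1) ≤ (Λ : ℚ) ^ (m : ℕ) :=
          pow_le_pow_right₀ h5 (by have := Fin.lt_def.1 h'; omega)
        have h8 : (Λ : ℚ) ^ ((k : ℕ) + 1) * |c k| ≤ (Λ : ℚ) ^ (m : ℕ) * |c k| :=
          mul_le_mul_of_nonneg_right h7 (abs_nonneg _)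
        have h9 : (Λ : ℚ) ^ ((k : ℕ) + 1) * (-|c k|) ≤ (Λ : ℚ) ^ ((k : ℕ) + 1) * c k :=
          mul_le_mul_of_nonneg_left (neg_abs_le _) (by positivity)
        linarith
      · rw [h0 k h']
        simp
  have h7 : (Λ : ℚ) ^ ((m : ℕ) + 1) * c m - (Λ : ℚ) ^ (m : ℕ) * ∑ k, |c k| ≤
      ∑ k : Fin n, (Λ : ℚ) ^ ((k : ℕ) + 1) * c k := by
    refine le_trans (le_of_eq ?_) (Finset.sum_le_sum fun k _ => h6 k)
    rw [Finset.sum_sub_distrib, Finset.sum_ite_eq' Finset.univ m, if_pos (Finset.mem_univ m),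
      Finset.mul_sum]
  have h8 : (Λ : ℚ) ^ j ≤ (Λ : ℚ) ^ (m : ℕ) := pow_le_pow_right₀ h5 hj
  have h9 : (0 : ℚ) < (Λ : ℚ) ^ (m : ℕ) := by positivity
  have h10 : (Λ : ℚ) ^ (m : ℕ) * 1 < (Λ : ℚ) ^ (m : ℕ) * ((Λ : ℚ) * c m - ∑ k, |c k|) :=
    mul_lt_mul_of_pos_left (by linarith) h9
  calc (Λ : ℚ) ^ j ≤ (Λ : ℚ) ^ (m : ℕ) * 1 := by rw [mul_one]; exact h8
    _ < (Λ : ℚ) ^ (m : ℕ) * ((Λ : ℚ) * c m - ∑ k, |c k|) := h10
    _ = (Λ : ℚ) ^ ((m : ℕ) + 1) * c m - (Λ : ℚ) ^ (m : ℕ) * ∑ k, |c k| := by ring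
    _ ≤ _ := h7

section Arr

variable {N ι : Type} [AddCommGroup N] {n : ℕ} (b : Basis (Fin n) ℤ N) [Finite ι]
  {F : ι → N →+ ℤ} {β : Cell F → N} (hβ : ∀ X, sv F (β X) = X.1)

include hβ in
theorem β_inj : Function.Injective β := by
  intro X Y h
  apply Subtype.ext
  rw [← hβ X, ← hβ Y, h]

include hβ in
theorem Fβ_zero {X : Cell F} {i : ι} : F i (β X) = 0 ↔ X.1 i = 0 := by
  rw [← sv_zero_iff, hβ]

theorem exists_idx {X : Fin (n + 1) → Cell F} (hX : StrictMono X) : ∃ i : Fin n → ι,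
    ∀ k, (X k.castSucc).1 (i k) = 0 ∧ (X k.succ).1 (i k) ≠ 0 := by
  have h := fun k : Fin n => exists_zero_of_lt (hX (Fin.castSucc_lt_succ (i := k)))
  choose i hi using h
  exact ⟨i, hi⟩

theorem zero_of_le {A B : Cell F} (h : A ≤ B) {i : ι} (hi : B.1 i = 0) : A.1 i = 0 := by
  rcases h i with h1 | h1
  · exact h1
  · rw [h1, hi]

include hβ in
theorem li_flag {X : Fin (n + 1) → Cell F} (hX : StrictMono X) :
    LinearIndependent ℚ (fun k : Fin n => eH b (β (X k.succ))) := by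
  obtain ⟨i, hi⟩ := exists_idx hX
  refine tri _ (fun k => Ft b (F (i k))) ?_ ?_
  · intro k j hjk
    rw [Ft_eH]
    have h1 : X j.succ ≤ X k.castSucc := hX.monotone (by
      rw [Fin.le_def]; simp; exact hjk)
    have h2 := zero_of_le h1 (hi k).1
    rw [(Fβ_zero hβ).2 h2]
    simp
  · intro k
    rw [Ft_eH]
    intro h
    exact (hi k).2 ((Fβ_zero hβ).1 (by exact_mod_cast h))

/-- the basis of a flag -/
noncomputable def bs {X : Fin (n + 1) → Cell F} (hX : StrictMono X) :
    Basis (Fin n) ℚ (Fin n → ℚ) :=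
  Basis.mk (li_flag b hβ hX) (by
    rw [LinearIndependent.span_eq_top_of_card_eq_finrank' (li_flag b hβ hX) (by simp)])

theorem bs_apply {X : Fin (n + 1) → Cell F} (hX : StrictMono X) (k : Fin n) :
    bs b hβ hX k = eH b (β (X k.succ)) := by
  rw [bs, Basis.mk_apply]

/-- coefficients -/
noncomputable def cf {X : Fin (n + 1) → Cell F} (hX : StrictMono X) (u : N) (k : Fin n) : ℚ :=
  (bs b hβ hX).repr (eH b u) k

theorem cf_self {X : Fin (n + 1) → Cell F} (hX : StrictMono X) (k l : Fin n) :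
    cf b hβ hX (β (X l.succ)) k = if l = k then 1 else 0 := by
  rw [cf, ← bs_apply b hβ hX, Basis.repr_self, Finsupp.single_apply]

theorem expand {X : Fin (n + 1) → Cell F} (hX : StrictMono X) (u : N) (f : N →+ ℤ) :
    (f u : ℚ) = ∑ k, cf b hβ hX u k * (f (β (X k.succ)) : ℚ) := by
  rw [← Ft_eH b f u]
  conv_lhs => rw [← (bs b hβ hX).sum_repr (eH b u)]
  rw [map_sum]
  refine Finset.sum_congr rfl fun k _ => ?_
  rw [map_smul, smul_eq_mul, bs_apply, Ft_eH]
  rfl

theorem cf_zero {X : Fin (n + 1) → Cell F} (hX : StrictMono X) {Y : Cell F} {m : Fin (n + 1)}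
    (hY : Y ≤ X m) (k : Fin n) (hk : m ≤ k.castSucc) : cf b hβ hX (β Y) k = 0 := by
  classical
  obtain ⟨i, hi⟩ := exists_idx hX
  by_contra hcon
  obtain ⟨l, hl, hmax⟩ := Finset.exists_max_image
    (Finset.univ.filter fun k : Fin n => m ≤ k.castSucc ∧ cf b hβ hX (β Y) k ≠ 0) id
    ⟨k, by simp [hk, hcon]⟩
  rw [Finset.mem_filter] at hl
  obtain ⟨-, hl1, hl2⟩ := hl
  have h1 : F (i l) (β Y) = 0 := by
    rw [Fβ_zero hβ]
    exact zero_of_le (hY.trans (hX.monotone hl1)) (hi l).1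
  have h2 := expand b hβ hX (β Y) (F (i l))
  rw [h1, Finset.sum_eq_single l] at h2
  · have h3 : cf b hβ hX (β Y) l * (F (i l) (β (X l.succ)) : ℚ) = 0 := by
      rw [← h2]; simp
    rcases mul_eq_zero.1 h3 with h | h
    · exact hl2 h
    · exact (hi l).2 ((Fβ_zero hβ).1 (by exact_mod_cast h))
  · intro j _ hjl
    rcases lt_or_gt_of_ne hjl with h | h
    · have h4 : X j.succ ≤ X l.castSucc := hX.monotone (by
        rw [Fin.le_def]; simp; exact h)
      have h5 := zero_of_le h4 (hi l).1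
      rw [(Fβ_zero hβ).2 h5]; simp
    · have h6 : cf b hβ hX (β Y) j = 0 := by
        by_contra h7
        have h8 := hmax j (by
          rw [Finset.mem_filter]
          refine ⟨Finset.mem_univ _, hl1.trans ?_, h7⟩
          rw [Fin.le_def]; simp; exact h.le)
        simp only [id] at h8
        exact absurd h (not_lt.2 h8)
      rw [h6, zero_mul]
  · intro h; exact absurd (Finset.mem_univ l) h

theorem cf_pos {X : Fin (n + 1) → Cell F} (hX : StrictMono X) {Y : Cell F} {m : Fin n}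
    (hY : Y ≤ X m.succ) (hY' : ¬ Y ≤ X m.castSucc) : 0 < cf b hβ hX (β Y) m := by
  classical
  obtain ⟨i, hi⟩ := exists_idx hX
  have h2 := expand b hβ hX (β Y) (F (i m))
  rw [Finset.sum_eq_single m] at h2
  · -- the value of Y at i m
    have h3 : Y.1 (i m) = (X m.succ).1 (i m) := by
      rcases hY (i m) with h | h
      · exfalso
        apply hY'
        have h4 : eH b (β Y) ∈ L b F (X m.succ).1 ⊓ LinearMap.ker (Ft b (F (i m))) := by
          refine ⟨?_, ?_⟩
          · show eH b (β Y) ∈ L b F (X m.succ).1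
            rw [eH_mem_L]
            intro j hj
            rw [Fβ_zero hβ]
            exact zero_of_le hY hj
          · show eH b (β Y) ∈ LinearMap.ker (Ft b (F (i m)))
            rw [LinearMap.mem_ker, Ft_eH, (Fβ_zero hβ).2 h]
            simp
        have h5 : L b F (X m.castSucc).1 ≤
            L b F (X m.succ).1 ⊓ LinearMap.ker (Ft b (F (i m))) := by
          refine le_inf (L_lt b (hX Fin.castSucc_lt_succ)).le ?_
          intro y hy
          rw [mem_L] at hy
          rw [LinearMap.mem_ker]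
          exact hy _ (hi m).1
        have h6 : L b F (X m.succ).1 ⊓ LinearMap.ker (Ft b (F (i m))) < L b F (X m.succ).1 := by
          refine lt_of_le_of_ne inf_le_left fun h7 => ?_
          have h8 : eH b (β (X m.succ)) ∈ L b F (X m.succ).1 := by
            rw [eH_mem_L]
            intro j hj
            rw [Fβ_zero hβ, hj]
          rw [← h7] at h8
          have h9 := h8.2
          have h10 : Ft b (F (i m)) (eH b (β (X m.succ))) = 0 := h9
          rw [Ft_eH] at h10
          exact (hi m).2 ((Fβ_zero hβ).1 (by exact_mod_cast h10))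
        have h7 := Submodule.finrank_lt_finrank_of_lt h6
        have h8 := dm_flag b hX m.succ
        have h9 := dm_flag b hX m.castSucc
        have h10 : L b F (X m.castSucc).1 =
            L b F (X m.succ).1 ⊓ LinearMap.ker (Ft b (F (i m))) := by
          apply Submodule.eq_of_le_of_finrank_le h5
          rw [dm] at h8 h9
          rw [h9]
          rw [h8] at h7
          simp only [Fin.val_succ, Fin.val_castSucc] at h7 ⊢
          omega
        rw [← h10, eH_mem_L] at h4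
        intro j
        by_cases hj : (X m.castSucc).1 j = 0
        · left
          rw [← Fβ_zero hβ]
          exact h4 j hj
        · have h11 : (X m.castSucc).1 j = (X m.succ).1 j :=
            ((hX (Fin.castSucc_lt_succ (i := m))).le j).resolve_left hj
          rw [h11]
          exact hY j
      · exact h
    have h4 : ((Y.1 (i m) : SignType) : ℤ) * F (i m) (β Y) = |F (i m) (β Y)| :=
      coe_mul_nonneg_of (congrFun (hβ Y) (i m)) (Or.inr rfl)
    have h5 : (((X m.succ).1 (i m) : SignType) : ℤ) * F (i m) (β (X m.succ)) =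
        |F (i m) (β (X m.succ))| :=
      coe_mul_nonneg_of (congrFun (hβ (X m.succ)) (i m)) (Or.inr rfl)
    have h6 : F (i m) (β (X m.succ)) ≠ 0 := fun h => (hi m).2 ((Fβ_zero hβ).1 h)
    have h7 : F (i m) (β Y) ≠ 0 := fun h => (hi m).2 (by
      rw [← h3]; exact (Fβ_zero hβ).1 h)
    have h8 : (|F (i m) (β Y)| : ℚ) = cf b hβ hX (β Y) m * |(F (i m) (β (X m.succ)) : ℚ)| := by
      have e1 : ((|F (i m) (β Y)| : ℤ) : ℚ) = ((Y.1 (i m) : SignType) : ℤ) * (F (i m) (β Y) : ℚ) := by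
        rw [← h4]; push_cast; ring
      have e2 : ((|F (i m) (β (X m.succ))| : ℤ) : ℚ) =
          (((X m.succ).1 (i m) : SignType) : ℤ) * (F (i m) (β (X m.succ)) : ℚ) := by
        rw [← h5]; push_cast; ring
      push_cast at e1 e2
      rw [e1, e2, h2, h3]
      ring
    have h9 : (0 : ℚ) < |(F (i m) (β (X m.succ)) : ℚ)| := by
      rw [abs_pos]; exact_mod_cast h6
    have h10 : (0 : ℚ) < |(F (i m) (β Y) : ℚ)| := by
      rw [abs_pos]; exact_mod_cast h7
    rw [h8] at h10
    exact (mul_pos_iff_of_pos_right h9).1 h10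
  · intro j _ hjl
    rcases lt_or_gt_of_ne hjl with h | h
    · have h4 : X j.succ ≤ X m.castSucc := hX.monotone (by
        rw [Fin.le_def]; simp; exact h)
      have h5 := zero_of_le h4 (hi m).1
      rw [(Fβ_zero hβ).2 h5]; simp
    · rw [cf_zero b hβ hX hY j (by rw [Fin.le_def]; simp; exact h), zero_mul]
  · intro h; exact absurd (Finset.mem_univ m) h

theorem exists_level {X : Fin (n + 1) → Cell F} (hX : StrictMono X) {Y : Cell F}
    (hY : Y ≤ X (Fin.last n)) (hd : 1 ≤ dm b F Y.1) :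
    ∃ m : Fin n, Y ≤ X m.succ ∧ ¬ Y ≤ X m.castSucc := by
  by_contra hcon
  push Not at hcon
  have h1 : ∀ k, Y ≤ X k := by
    intro k
    induction k using Fin.reverseInduction with
    | last => exact hY
    | cast i ih => exact hcon i ih
  have h2 := h1 0
  have h3 := dm_flag b hX 0
  rcases h2.eq_or_lt with h4 | h4
  · rw [← h4] at h3
    simp at h3
    omega
  · have := dm_lt b h4
    simp at h3
    omega

/-- the functional of a flag on the powers -/
noncomputable def wt {X : Fin (n + 1) → Cell F} (hX : StrictMono X) (Λ : ℕ) (u : N) : ℚ :=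
  ∑ k : Fin n, (Λ : ℚ) ^ ((k : ℕ) + 1) * cf b hβ hX u k

theorem ev_wt {X : Fin (n + 1) → Cell F} (hX : StrictMono X) {Y : Cell F}
    (hY : Y ≤ X (Fin.last n)) (hd : 1 ≤ dm b F Y.1) (hr : ∀ k : Fin n, Y ≠ X k.succ) :
    ∀ᶠ Λ : ℕ in atTop, (Λ : ℚ) ^ (dm b F Y.1) < wt b hβ hX Λ (β Y) := by
  obtain ⟨m, h1, h2⟩ := exists_level b hX hY hd
  refine growth _ m (fun k hk => cf_zero b hβ hX h1 k (by
    rw [Fin.le_def]; simp; exact hk)) (cf_pos b hβ hX h1 h2) _ ?_
  have h3 := dm_lt b (lt_of_le_of_ne h1 (hr m))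
  have h4 := dm_flag b hX m.succ
  simp only [Fin.val_succ] at h4
  omega

variable (F) in
/-- the support function -/
noncomputable def ph (Λ E : ℕ) (x : N) : ℚ :=
  haveI := Fintype.ofFinite ι
  (Λ : ℚ) ^ (dm b F (sv F x)) / E - ((∑ i, |F i x| : ℤ) : ℚ)

open Classical in
/-- generators of the cone of a flag -/
noncomputable def gens (β : Cell F → N) (X : Fin (n + 1) → Cell F) : Finset N :=
  Finset.univ.image fun k : Fin n => β (X k.succ)

/-- the fan -/
noncomputable def SS (β : Cell F → N) (n : ℕ) : Finset (Finset N) :=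
  (Set.finite_range fun X : {X : Fin (n + 1) → Cell F // StrictMono X} => gens β X.1).toFinset

theorem mem_SS {σ : Finset N} : σ ∈ SS β n ↔
    ∃ X : Fin (n + 1) → Cell F, StrictMono X ∧ gens β X = σ := by
  simp [SS]

theorem mem_gens {X : Fin (n + 1) → Cell F} {u : N} :
    u ∈ gens β X ↔ ∃ k : Fin n, β (X k.succ) = u := by
  simp [gens]

/-- the linear function of a flag -/
noncomputable def vv {X : Fin (n + 1) → Cell F} (hX : StrictMono X) (Λ E : ℕ) : N →+ ℚ :=
  haveI := Fintype.ofFinite ι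
  ((-(∑ i, ((((X (Fin.last n)).1 i : SignType) : ℤ) : ℚ) • Ft b (F i)) +
    (1 / (E : ℚ)) • ∑ k : Fin n, (Λ : ℚ) ^ ((k : ℕ) + 1) • (bs b hβ hX).coord k :
      (Fin n → ℚ) →ₗ[ℚ] ℚ).toAddMonoidHom).comp (eH b)

theorem vv_apply {X : Fin (n + 1) → Cell F} (hX : StrictMono X) (Λ E : ℕ) [hι : Fintype ι] (x : N) :
    vv b hβ hX Λ E x = -((∑ i, (((X (Fin.last n)).1 i : SignType) : ℤ) * F i x : ℤ) : ℚ) +
      wt b hβ hX Λ x / E := by
  obtain rfl : hι = Fintype.ofFinite ι := Subsingleton.elim _ _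
  simp only [vv, AddMonoidHom.comp_apply, LinearMap.toAddMonoidHom_coe, LinearMap.add_apply,
    LinearMap.neg_apply, LinearMap.sum_apply, LinearMap.smul_apply, Ft_eH, smul_eq_mul,
    Basis.coord_apply, wt, cf]
  push_cast
  rw [div_eq_inv_mul, div_eq_inv_mul, mul_one]

theorem ph_apply (Λ E : ℕ) [hι : Fintype ι] (x : N) :
    ph b F Λ E x = -((∑ i, |F i x| : ℤ) : ℚ) + (Λ : ℚ) ^ (dm b F (sv F x)) / E := by
  obtain rfl : hι = Fintype.ofFinite ι := Subsingleton.elim _ _
  rw [ph, sub_eq_add_neg, add_comm]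

include hβ in
theorem exists_par : ∃ Λ : ℕ, ∃ E : ℕ, 1 ≤ E ∧
    ∀ (X : Fin (n + 1) → Cell F) (hX : StrictMono X) (Y : Cell F), 1 ≤ dm b F Y.1 →
      (∀ k : Fin n, Y ≠ X k.succ) →
      (Y ≤ X (Fin.last n) → (Λ : ℚ) ^ (dm b F Y.1) < wt b hβ hX Λ (β Y)) ∧
      (Λ : ℚ) ^ (dm b F Y.1) - wt b hβ hX Λ (β Y) < E := by
  have h1 : ∀ᶠ Λ : ℕ in atTop, ∀ (X : {X : Fin (n + 1) → Cell F // StrictMono X}) (Y : Cell F),
      Y ≤ X.1 (Fin.last n) → 1 ≤ dm b F Y.1 → (∀ k : Fin n, Y ≠ X.1 k.succ) →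
      (Λ : ℚ) ^ (dm b F Y.1) < wt b hβ X.2 Λ (β Y) := by
    rw [eventually_all]
    intro X
    rw [eventually_all]
    intro Y
    by_cases h : Y ≤ X.1 (Fin.last n) ∧ 1 ≤ dm b F Y.1 ∧ ∀ k : Fin n, Y ≠ X.1 k.succ
    · filter_upwards [ev_wt b hβ X.2 h.1 h.2.1 h.2.2] with Λ hΛ _ _ _
      exact hΛ
    · refine Eventually.of_forall fun Λ h1 h2 h3 => absurd ⟨h1, h2, h3⟩ h
  obtain ⟨Λ, hΛ⟩ := h1.exists
  have h2 : ∀ᶠ E : ℕ in atTop, ∀ (X : {X : Fin (n + 1) → Cell F // StrictMono X}) (Y : Cell F),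
      (Λ : ℚ) ^ (dm b F Y.1) - wt b hβ X.2 Λ (β Y) < E := by
    rw [eventually_all]
    intro X
    rw [eventually_all]
    intro Y
    obtain ⟨E₀, hE₀⟩ := exists_nat_gt ((Λ : ℚ) ^ (dm b F Y.1) - wt b hβ X.2 Λ (β Y))
    filter_upwards [eventually_ge_atTop E₀] with E hE
    exact hE₀.trans_le (by exact_mod_cast hE)
  obtain ⟨E, hE, hE1⟩ := (h2.and (eventually_ge_atTop 1)).exists
  exact ⟨Λ, E, hE1, fun X hX Y h3 h4 => ⟨fun h5 => hΛ ⟨X, hX⟩ Y h5 h3 h4, hE ⟨X, hX⟩ Y⟩⟩

include b hβ in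
theorem li_int {X : Fin (n + 1) → Cell F} (hX : StrictMono X) :
    LinearIndependent ℤ (fun k : Fin n => β (X k.succ)) := by
  have h := li_flag b hβ hX
  rw [Fintype.linearIndependent_iff] at h ⊢
  intro g hg i
  have h1 : ∑ k, (g k : ℚ) • eH b (β (X k.succ)) = 0 := by
    have h2 : eH b (∑ k, g k • β (X k.succ)) = 0 := by rw [hg, map_zero]
    rw [map_sum] at h2
    rw [← h2]
    refine Finset.sum_congr rfl fun k _ => ?_
    rw [map_zsmul]
    exact (Int.cast_smul_eq_zsmul ℚ (g k) _)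
  have h2 := h (fun k => (g k : ℚ)) h1 i
  exact_mod_cast h2

include b hβ in
theorem dat (hF0 : ∀ x, (∀ i, F i x = 0) → x = 0) (hF : ∀ i, F i ≠ 0) :
    ∃ Λ E : ℕ, Dat (ph b F Λ E) (SS β n) := by
  classical
  haveI : Fintype ι := Fintype.ofFinite ι
  obtain ⟨Λ, E, hE, hpar⟩ := exists_par b hβ
  have hE0 : (0 : ℚ) < E := by exact_mod_cast hE
  have hinj : ∀ {X : Fin (n + 1) → Cell F}, StrictMono X →
      Function.Injective fun k : Fin n => β (X k.succ) := by
    intro X hX k l hkl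
    have h1 := hX.injective (β_inj hβ hkl)
    exact Fin.succ_injective _ h1
  refine ⟨Λ, E, ⟨?_, ?_, ?_, ?_, ?_⟩⟩
  · obtain ⟨X, hX⟩ := exists_flag b hF0 hF
    exact ⟨gens β X, mem_SS.2 ⟨X, hX, rfl⟩⟩
  · intro σ hσ
    obtain ⟨X, hX, rfl⟩ := mem_SS.1 hσ
    rw [gens, Finset.card_image_of_injective _ (hinj hX), Finset.card_univ,
      Module.finrank_eq_card_basis b]
  · intro σ hσ
    obtain ⟨X, hX, rfl⟩ := mem_SS.1 hσ
    have h1 := li_int b hβ hX
    have h2 : Set.range (fun k : Fin n => β (X k.succ)) = {u | u ∈ gens β X} := by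
      ext u
      simp [mem_gens]
    have h3 := h1.linearIndepOn_id
    rw [h2] at h3
    exact h3
  · intro σ hσ
    obtain ⟨X, hX, rfl⟩ := mem_SS.1 hσ
    refine ⟨vv b hβ hX Λ E, ?_, ?_⟩
    · intro u hu
      obtain ⟨k, rfl⟩ := mem_gens.1 hu
      rw [vv_apply, ph_apply, hβ, dm_flag b hX k.succ]
      have h1 : ∀ i, (((X (Fin.last n)).1 i : SignType) : ℤ) * F i (β (X k.succ)) =
          |F i (β (X k.succ))| := by
        intro i
        have h2 : X k.succ ≤ X (Fin.last n) := hX.monotone (Fin.le_last _)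
        exact coe_mul_nonneg_of (congrFun (hβ _) i) (h2 i)
      rw [Finset.sum_congr rfl fun i _ => h1 i]
      congr 2
      rw [wt, Finset.sum_eq_single k]
      · rw [cf_self, if_pos rfl, mul_one, Fin.val_succ]
      · intro l _ hl
        rw [cf_self, if_neg (Ne.symm hl), mul_zero]
      · intro h; exact absurd (Finset.mem_univ k) h
    · intro σ' hσ' u hu hne
      obtain ⟨X', hX', rfl⟩ := mem_SS.1 hσ'
      obtain ⟨k, rfl⟩ := mem_gens.1 hu
      set Y := X' k.succ with hYdef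
      have hd : 1 ≤ dm b F Y.1 := by
        rw [hYdef, dm_flag b hX' k.succ, Fin.val_succ]; omega
      have hr : ∀ l : Fin n, Y ≠ X l.succ := by
        intro l hl
        apply hne
        rw [mem_gens]
        exact ⟨l, by rw [hl]⟩
      obtain ⟨h1, h2⟩ := hpar X hX Y hd hr
      rw [vv_apply, ph_apply, hβ]
      have h3 : ∀ i, (((X (Fin.last n)).1 i : SignType) : ℤ) * F i (β Y) ≤ |F i (β Y)| :=
        fun i => coe_mul_le_abs _ _
      by_cases hle : Y ≤ X (Fin.last n)
      · have h4 := h1 hle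
        have h5 : (∑ i, (((X (Fin.last n)).1 i : SignType) : ℤ) * F i (β Y)) ≤
            ∑ i, |F i (β Y)| := Finset.sum_le_sum fun i _ => h3 i
        have h6 : ((∑ i, (((X (Fin.last n)).1 i : SignType) : ℤ) * F i (β Y) : ℤ) : ℚ) ≤
            ((∑ i, |F i (β Y)| : ℤ) : ℚ) := by exact_mod_cast h5
        have h7 : (Λ : ℚ) ^ (dm b F Y.1) / E < wt b hβ hX Λ (β Y) / E :=
          div_lt_div_of_pos_right h4 hE0
        linarith
      · have h4 : (∑ i, (((X (Fin.last n)).1 i : SignType) : ℤ) * F i (β Y)) + 1 ≤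
            ∑ i, |F i (β Y)| := by
          rw [le_def] at hle
          push Not at hle
          obtain ⟨i, hi1, hi2⟩ := hle
          have hnz := no_zero b (dm_flag b hX (Fin.last n)) hF i
          have h5 : (((X (Fin.last n)).1 i : SignType) : ℤ) * F i (β Y) < |F i (β Y)| := by
            refine lt_of_le_of_ne (h3 i) fun h6 => ?_
            have h7 : F i (β Y) ≠ 0 := fun h => hi1 ((Fβ_zero hβ).1 h)
            have h8 : SignType.sign (F i (β Y)) = (X (Fin.last n)).1 i := by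
              apply sgn_pos
              rw [h6, abs_pos]
              exact h7
            apply hi2
            rw [← h8]
            exact (congrFun (hβ Y) i).symm
          have h9 := Finset.sum_lt_sum (fun i _ => h3 i) ⟨i, Finset.mem_univ i, h5⟩
          omega
        have h6 : ((∑ i, (((X (Fin.last n)).1 i : SignType) : ℤ) * F i (β Y) : ℤ) : ℚ) + 1 ≤
            ((∑ i, |F i (β Y)| : ℤ) : ℚ) := by exact_mod_cast h4
        have h7 : ((Λ : ℚ) ^ (dm b F Y.1) - wt b hβ hX Λ (β Y)) / E < 1 := by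
          rw [div_lt_one hE0]; exact h2
        rw [sub_div] at h7
        linarith
  · intro σ hσ u hu
    obtain ⟨X, hX, rfl⟩ := mem_SS.1 hσ
    obtain ⟨k, rfl⟩ := mem_gens.1 hu
    -- the new cell
    obtain ⟨Y, hY1, hY2, hY3⟩ : ∃ Y : Cell F, X k.castSucc < Y ∧ Y ≠ X k.succ ∧
        ∀ l : Fin n, l.castSucc = k.succ → Y < X l.succ := by
      by_cases hk : ∃ l : Fin n, l.castSucc = k.succ
      · obtain ⟨l, hl⟩ := hk
        obtain ⟨Y, h1, h2, h3⟩ := adjMid (hX (Fin.castSucc_lt_succ (i := k)))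
          (show X k.succ < X l.succ by rw [← hl]; exact hX Fin.castSucc_lt_succ)
        refine ⟨Y, h1, h3, fun l' hl' => ?_⟩
        have : l' = l := Fin.castSucc_injective _ (hl'.trans hl.symm)
        rw [this]; exact h2
      · push Not at hk
        have h0 : k.succ = Fin.last n := by
          by_contra h1
          obtain ⟨l, hl⟩ := Fin.exists_castSucc_eq.2 h1
          exact hk l hl
        obtain ⟨Y, h1, h2⟩ := adjTop (hX (Fin.castSucc_lt_succ (i := k)))
          (by rw [h0]; exact no_zero b (dm_flag b hX (Fin.last n)) hF)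
        exact ⟨Y, h1, h2, fun l hl => absurd hl (hk l)⟩
    set X' : Fin (n + 1) → Cell F := Function.update X k.succ Y with hX'
    have hmono : StrictMono X' := by
      rw [Fin.strictMono_iff_lt_succ]
      intro l
      by_cases h1 : l.succ = k.succ
      · have h2 : l = k := Fin.succ_injective _ h1
        subst h2
        have h3 : l.castSucc ≠ l.succ := (Fin.castSucc_lt_succ (i := l)).ne
        rw [hX', Function.update_of_ne h3, Function.update_self]
        exact hY1
      · by_cases h2 : l.castSucc = k.succ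
        · rw [hX', Function.update_of_ne h1, h2, Function.update_self]
          exact hY3 l h2
        · rw [hX', Function.update_of_ne h1, Function.update_of_ne h2]
          exact hX Fin.castSucc_lt_succ
    refine ⟨gens β X', mem_SS.2 ⟨X', hmono, rfl⟩, ?_, ?_⟩
    · intro h1
      obtain ⟨l, hl⟩ := mem_gens.1 h1
      have h2 := β_inj hβ hl
      by_cases h3 : l.succ = k.succ
      · rw [hX', h3, Function.update_self] at h2
        exact hY2 h2
      · rw [hX', Function.update_of_ne h3] at h2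
        exact h3 (hX.injective h2)
    · intro w hw hwne
      obtain ⟨l, rfl⟩ := mem_gens.1 hw
      rw [mem_gens]
      refine ⟨l, ?_⟩
      rw [hX', Function.update_of_ne]
      intro h3
      exact hwne (by rw [h3])

end Arr

end Pool.Agent.K3h77.EXA
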